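import Pool.Agent.Lib.MP_e1fd79_gt.H59.Met

set_option autoImplicit false

open scoped ContDiff Topology
open MeasureTheory Filter

namespace Pool.Agent.Lib.MP_e1fd79_gt.H59

theorem four_exp_lt : 4 * Real.exp (-2) < 1 := by
  have h1 : (2.7 : ℝ) < Real.exp 1 := lt_trans (by norm_num) Real.exp_one_gt_d9
  have h2 : Real.exp 2 = Real.exp 1 * Real.exp 1 := by
    rw [← Real.exp_add]; norm_num
  have h3 : (4 : ℝ) < Real.exp 2 := by rw [h2]; nlinarith
  rw [Real.exp_neg, ← div_eq_mul_inv, div_lt_one (Real.exp_pos 2)]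
  exact h3

/-- The choice of the integer `k = 1/q`. -/
theorem exists_k (lam B C c a : ℝ) (ha : 0 < a) (hc : 0 < c) :
    ∃ k : ℕ, 1 ≤ k ∧ (4 : ℝ) ^ k * Real.exp (2 - 2 * (k : ℝ)) / lam ≤ 1 / 128 ∧
      C + B < a * √(k : ℝ) / √c := by
  have e1 : ∀ᶠ k : ℕ in atTop, 1 ≤ k := eventually_ge_atTop 1
  have e2 : ∀ᶠ k : ℕ in atTop, (4 : ℝ) ^ k * Real.exp (2 - 2 * (k : ℝ)) / lam < 1 / 128 := by
    have h1 : Tendsto (fun k : ℕ => (4 * Real.exp (-2)) ^ k * (Real.exp 2 / lam)) atTop
        (𝓝 (0 * (Real.exp 2 / lam))) :=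
      (tendsto_pow_atTop_nhds_zero_of_lt_one (by positivity) four_exp_lt).mul_const _
    rw [zero_mul] at h1
    have h2 := (tendsto_order.1 h1).2 (1 / 128) (by norm_num)
    filter_upwards [h2] with k hk
    have h3 : (4 : ℝ) ^ k * Real.exp (2 - 2 * (k : ℝ)) / lam =
        (4 * Real.exp (-2)) ^ k * (Real.exp 2 / lam) := by
      rw [mul_pow, ← Real.exp_nat_mul, show (2 : ℝ) - 2 * (k : ℝ) = (k : ℝ) * (-2) + 2 by ring,
        Real.exp_add]
      ring
    rw [h3]
    exact hk
  have e3 : ∀ᶠ k : ℕ in atTop, C + B < a * √(k : ℝ) / √c := by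
    have h1 : Tendsto (fun k : ℕ => √(k : ℝ)) atTop atTop :=
      (Real.tendsto_sqrt_atTop).comp tendsto_natCast_atTop_atTop
    have h2 : Tendsto (fun k : ℕ => a / √c * √(k : ℝ)) atTop atTop :=
      h1.const_mul_atTop (by positivity)
    filter_upwards [h2.eventually_gt_atTop (C + B)] with k hk
    calc C + B < a / √c * √(k : ℝ) := hk
      _ = _ := by ring
  obtain ⟨k, h1, h2, h3⟩ := (e1.and (e2.and e3)).exists
  exact ⟨k, h1, h2.le, h3⟩

theorem zz_le {m : ℕ} (x : Fin (m + 3) → ℝ) (h : ∀ i : Fin (m + 3), 3 ≤ i.val →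
    |x i| ≤ 1 / (8 * ((m : ℝ) + 1))) : zz x ≤ 1 / 64 := by
  unfold zz
  have h1 : ∀ i : Fin m, x i.succ.succ.succ ^ 2 ≤ (1 / (8 * ((m : ℝ) + 1))) ^ 2 := by
    intro i
    rw [← sq_abs]
    exact pow_le_pow_left₀ (abs_nonneg _) (h _ (by simp)) 2
  calc ∑ i : Fin m, x i.succ.succ.succ ^ 2 ≤ ∑ _i : Fin m, (1 / (8 * ((m : ℝ) + 1))) ^ 2 :=
        Finset.sum_le_sum (fun i _ => h1 i)
    _ = m * (1 / (8 * ((m : ℝ) + 1))) ^ 2 := by simp
    _ ≤ 1 / 64 := by
        have hm : (0 : ℝ) ≤ m := Nat.cast_nonneg m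
        have h2 : (m : ℝ) * (1 / (8 * ((m : ℝ) + 1))) ^ 2 = m / (64 * ((m : ℝ) + 1) ^ 2) := by
          field_simp
          norm_num
        rw [h2, div_le_div_iff₀ (by positivity) (by norm_num)]
        nlinarith

theorem main_of (hMet : MetStatement) (hVol : VolStatement)
    (hQF : QFStatement) (hRic : RicStatement) (hSeg : SegStatement) (hTube : TubeStatement)
    (hLipF : LipFStatement) (hComp : CompStatement) (hProf : ProfStatement)
    (hInt : IntStatement) (hBox : BoxStatement) : MainStatement := by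
  intro n hn lam hlam C
  obtain ⟨m, rfl⟩ : ∃ m, n = m + 3 := ⟨n - 3, by omega⟩
  set K : ℝ := 1 + lam + 1 / lam with hK
  set c : ℝ := 1 + lam / 128 + 32 / lam with hc
  set ε : ℝ := 1 / (8 * ((m : ℝ) + 1)) with hε
  have hK1 : 1 ≤ K := by
    have : 0 < 1 / lam := by positivity
    linarith
  have hc0 : 0 < c := by positivity
  have hε0 : 0 < ε := by positivity
  set B : ℝ := 3 * lam * (16 * Real.exp (2 * √K) * 2 ^ m) with hB
  obtain ⟨k, hk1, hk2, hk3⟩ := exists_k lam B C c ((2 * ε) ^ m) (by positivity) hc0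
  have hkR : (1 : ℝ) ≤ k := by exact_mod_cast hk1
  have hk0 : (0 : ℝ) < k := by linarith
  set q : ℝ := 1 / (k : ℝ) with hq
  have hq0 : 0 < q := by positivity
  have hq1 : q ≤ 1 := by rw [hq, div_le_one hk0]; exact hkR
  have hqk : q * k = 1 := by rw [hq]; field_simp
  obtain ⟨P, hN, hN1, hN2, hNq, hNt0, hNK, hNK1⟩ := hProf lam q hlam hq0 hq1
  obtain ⟨M, hM⟩ := hMet P m
  set d : ℝ := dd lam q with hd
  have hd0 : 0 < d := by rw [hd]; unfold dd; positivity
  have hvol := hVol P m M hM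
  -- scalar curvature
  have hab : ∀ x : Fin (m + 3) → ℝ,
      -2 * (tt x * deriv (deriv P.N) (tt x) + deriv P.N (tt x)) =
        -lam + q * d / (tt x + d) ^ 2 := by
    intro x
    have ht : 0 ≤ tt x := by unfold tt; positivity
    rw [hN1 _ ht, hN2 _ ht]
    have : tt x + d ≠ 0 := by positivity
    field_simp
    ring
  have hscal : ∀ x : Fin (m + 3) → ℝ, M.scal x = q * (3 * d + tt x) / (tt x + d) ^ 2 - 3 * lam := by
    intro x
    have ht : 0 ≤ tt x := by unfold tt; positivity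
    rw [(hRic P m M hM x _ _ rfl rfl).2, hab, hN2 _ ht]
    have : tt x + d ≠ 0 := by positivity
    field_simp
    ring
  have hRicGE : M.RicciGE lam := by
    intro x v
    have ht : 0 ≤ tt x := by unfold tt; positivity
    rw [(hRic P m M hM x _ _ rfl rfl).1 v, hab, hN2 _ ht]
    have hin : M.inner x v v = P.qf x v := by
      unfold RMetric.inner
      rw [hM]
      exact hQF P m x v
    rw [hin]
    have hz : 0 ≤ zz v := zz_nonneg v
    have hg : 0 ≤ P.qf x v - zz v := by
      rw [qf_eq]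
      have h1 := gp_nonneg P x v
      have h2 := N_pos P x
      have h3 : 0 ≤ P.N (tt x) * v 2 ^ 2 := by positivity
      linarith
    have h1 : 0 ≤ q * d / (tt x + d) ^ 2 := by positivity
    have h2 : 0 ≤ 2 * (q / 2 / (tt x + d) ^ 2) := by positivity
    have h3 : 0 ≤ q * d / (tt x + d) ^ 2 * (P.qf x v - zz v) := mul_nonneg h1 hg
    have h4 : 0 ≤ 2 * (q / 2 / (tt x + d) ^ 2) * (x 0 * v 1 - x 1 * v 0) ^ 2 := by positivity
    nlinarith
  have hComplete : M.Complete := hComp hLipF hSeg P m M hM q K hq0 hq1 hK1 hNq hNK hNK1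
  refine ⟨M, hComplete, hRicGE, ?_⟩
  set t0 : ℝ := q / 64 with ht0
  have ht00 : 0 < t0 := by positivity
  set p : Fin (m + 3) → ℝ := fun i => if i.val = 0 then √t0 else 0 with hp
  refine ⟨p, ?_⟩
  have hpt : tt p = t0 := by
    have h0 : p 0 = √t0 := by simp [hp]
    have h1 : p 1 = 0 := by simp [hp]
    unfold tt
    rw [h0, h1, Real.sq_sqrt ht00.le]
    ring
  have hp2 : p 2 = 0 := by
    simp only [hp]
    rw [if_neg]
    rw [val_two]
    norm_num
  -- the tube
  set Y : ℝ := 1 / (2 * √(c * q)) with hY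
  have hcq : 0 < c * q := by positivity
  have hY0 : 0 ≤ Y := by positivity
  have hNY : P.N t0 * Y ^ 2 ≤ 1 / 4 := by
    have h1 : Y ^ 2 = 1 / (4 * (c * q)) := by
      rw [hY, div_pow, mul_pow, Real.sq_sqrt hcq.le]
      norm_num
    rw [h1]
    calc P.N t0 * (1 / (4 * (c * q))) ≤ (c * q) * (1 / (4 * (c * q))) :=
          mul_le_mul_of_nonneg_right hNt0 (by positivity)
      _ = 1 / 4 := by field_simp
  set Tube : Set (Fin (m + 3) → ℝ) :=
    {x | tt x ≤ t0 ∧ |x 2| ≤ Y ∧ ∀ i : Fin (m + 3), 3 ≤ i.val → |x i| ≤ ε} with hTubeDef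
  have hTubeBall : Tube ⊆ M.ball p 1 := by
    intro x hx
    exact hTube P m M hM q t0 Y hq0 hq1 hNq ht00.le le_rfl hY0 hNY x hx.1 hx.2.1
      (zz_le x hx.2.2)
  -- the box
  set T : ℝ := 2 * q * Real.exp (2 * √K) with hT
  set Box : Set (Fin (m + 3) → ℝ) :=
    {x | tt x ≤ T ∧ |x 2| ≤ 1 / √q ∧ ∀ i : Fin (m + 3), 3 ≤ i.val → |x i| ≤ 1} with hBoxDef
  have hBallBox : M.ball p 1 ⊆ Box := by
    intro x hx
    have hx1 : M.dist p x < 1 := hx
    obtain ⟨l1, -, -, l2, l3⟩ := hLipF P m M hM q K hq0 hq1 hK1 hNq hNK hNK1 p x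
    have hsK : 0 ≤ √K := Real.sqrt_nonneg K
    have ht : 0 ≤ tt x := tt_nonneg x
    refine ⟨?_, ?_, ?_⟩
    · rw [hpt] at l1
      have h1 : Real.log (q + tt x) ≤ Real.log (q + t0) + 2 * √K := by
        have h2 := (abs_le.1 l1).1
        nlinarith
      have h3 : q + tt x ≤ (q + t0) * Real.exp (2 * √K) := by
        rw [← Real.exp_log (show 0 < q + tt x by positivity)]
        calc Real.exp (Real.log (q + tt x)) ≤ Real.exp (Real.log (q + t0) + 2 * √K) :=
              Real.exp_le_exp.2 h1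
          _ = _ := by rw [Real.exp_add, Real.exp_log (by positivity)]
      have h4 : (q + t0) * Real.exp (2 * √K) ≤ 2 * q * Real.exp (2 * √K) := by
        apply mul_le_mul_of_nonneg_right _ (Real.exp_pos _).le
        rw [ht0]
        linarith
      linarith
    · rw [hp2, zero_sub, abs_neg] at l2
      refine l2.trans ?_
      have : 0 ≤ 1 / √q := by positivity
      nlinarith
    · intro i hi
      have h1 := l3 i hi
      have h2 : p i = 0 := by
        simp only [hp]
        rw [if_neg]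
        omega
      rw [h2, zero_sub, abs_neg] at h1
      linarith
  have hT0 : 0 ≤ T := by positivity
  have hsq0 : 0 < √q := Real.sqrt_pos.2 hq0
  have hBoxVol : volume Box ≤ ENNReal.ofReal (4 * T * (2 * (1 / √q)) * 2 ^ m) :=
    hBox m T (1 / √q) hT0 (by positivity)
  have hBallVol : volume (M.ball p 1) ≤ ENNReal.ofReal (4 * T * (2 * (1 / √q)) * 2 ^ m) :=
    (measure_mono hBallBox).trans hBoxVol
  have hBallFin : volume (M.ball p 1) ≠ ⊤ := ne_top_of_le_ne_top ENNReal.ofReal_ne_top hBallVol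
  have hBallReal : volume.real (M.ball p 1) ≤ 16 * Real.exp (2 * √K) * 2 ^ m := by
    have h1 : volume.real (M.ball p 1) ≤ 4 * T * (2 * (1 / √q)) * 2 ^ m :=
      ENNReal.toReal_le_of_le_ofReal (by positivity) hBallVol
    have h2 : 4 * T * (2 * (1 / √q)) * 2 ^ m = 16 * Real.exp (2 * √K) * 2 ^ m * (q / √q) := by
      rw [hT]; ring
    have h3 : q / √q ≤ 1 := by
      rw [Real.div_sqrt]
      exact Real.sqrt_le_one.2 hq1
    have h4 : 0 ≤ 16 * Real.exp (2 * √K) * 2 ^ m := by positivity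
    rw [h2] at h1
    calc volume.real (M.ball p 1) ≤ 16 * Real.exp (2 * √K) * 2 ^ m * (q / √q) := h1
      _ ≤ 16 * Real.exp (2 * √K) * 2 ^ m * 1 := mul_le_mul_of_nonneg_left h3 h4
      _ = _ := mul_one _
  -- the function S = R + 3 lam
  set S : (Fin (m + 3) → ℝ) → ℝ := fun x => q * (3 * d + tt x) / (tt x + d) ^ 2 with hS
  have hScont : Continuous S := by
    rw [hS]
    have h1 : Continuous (fun x : Fin (m + 3) → ℝ => tt x) := (contDiff_tt (k := 0)).continuous
    refine Continuous.div (by fun_prop) (by fun_prop) ?_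
    intro x
    have := tt_nonneg x
    positivity
  have hS0 : ∀ x, 0 ≤ S x := by
    intro x
    have := tt_nonneg x
    simp only [hS]
    positivity
  have hSle : ∀ x, S x ≤ 3 * q / d := by
    intro x
    have := tt_nonneg x
    simp only [hS]
    rw [div_le_div_iff₀ (by positivity) hd0]
    have h5 : 0 ≤ q * tt x * (3 * tt x + 5 * d) := by positivity
    nlinarith
  have hSint : IntegrableOn S (M.ball p 1) := by
    refine Measure.integrableOn_of_bounded (M := 3 * q / d) hBallFin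
      hScont.aestronglyMeasurable ?_
    refine Filter.Eventually.of_forall (fun x => ?_)
    rw [Real.norm_eq_abs, abs_of_nonneg (hS0 x)]
    exact hSle x
  have hfun : M.scal = fun x => S x - 3 * lam := by
    funext x
    exact hscal x
  have hcint : IntegrableOn (fun _ : Fin (m + 3) → ℝ => 3 * lam) (M.ball p 1) :=
    integrableOn_const hBallFin
  rw [hvol, hfun]
  refine ⟨hSint.sub hcint, ?_⟩
  rw [integral_sub hSint hcint, setIntegral_const, smul_eq_mul]
  have h1 : ∫ x in Tube, S x ≤ ∫ x in M.ball p 1, S x :=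
    setIntegral_mono_set hSint (Filter.Eventually.of_forall hS0)
      (LE.le.eventuallyLE hTubeBall)
  have hSintT : IntegrableOn S Tube := hSint.mono_set hTubeBall
  have hRcont : Continuous (fun x : Fin (m + 3) → ℝ => 1 / (tt x + d)) := by
    have h1 : Continuous (fun x : Fin (m + 3) → ℝ => tt x) := (contDiff_tt (k := 0)).continuous
    refine Continuous.div (by fun_prop) (by fun_prop) ?_
    intro x
    have := tt_nonneg x
    positivity
  have hRint : IntegrableOn (fun x : Fin (m + 3) → ℝ => 1 / (tt x + d)) Tube := by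
    refine Measure.integrableOn_of_bounded (M := 1 / d)
      (ne_top_of_le_ne_top hBallFin (measure_mono hTubeBall)) hRcont.aestronglyMeasurable ?_
    refine Filter.Eventually.of_forall (fun x => ?_)
    have := tt_nonneg x
    rw [Real.norm_eq_abs, abs_of_nonneg (by positivity)]
    exact one_div_le_one_div_of_le hd0 (by linarith)
  have h2 : q * ∫ x in Tube, 1 / (tt x + d) ≤ ∫ x in Tube, S x := by
    rw [← integral_const_mul]
    refine setIntegral_mono (hRint.const_mul q) hSintT ?_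
    intro x
    have := tt_nonneg x
    simp only [hS]
    rw [mul_one_div, div_le_div_iff₀ (by positivity) (by positivity)]
    have h5 : 0 ≤ q * (tt x + d) * (2 * d) := by positivity
    nlinarith
  have h3 : (k : ℝ) * (2 * Y) * (2 * ε) ^ m ≤ ∫ x in Tube, 1 / (tt x + d) := by
    refine hInt m k t0 d Y ε ht00 hd0 hY0 hε0.le ?_
    have h4 : d = q / lam * Real.exp (2 - 2 * (k : ℝ)) := by
      rw [hd]
      unfold dd
      have : 2 / q = 2 * (k : ℝ) := by rw [hq]; field_simp
      rw [this]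
    rw [h4, ht0]
    calc (4 : ℝ) ^ k * (q / lam * Real.exp (2 - 2 * (k : ℝ)))
        = q * ((4 : ℝ) ^ k * Real.exp (2 - 2 * (k : ℝ)) / lam) := by ring
      _ ≤ q * (1 / 128) := mul_le_mul_of_nonneg_left hk2 hq0.le
      _ = q / 64 / 2 := by ring
  have h4 : q * ((k : ℝ) * (2 * Y) * (2 * ε) ^ m) = (2 * ε) ^ m * √(k : ℝ) / √c := by
    have h5 : √(c * q) = √c / √(k : ℝ) := by
      rw [hq, mul_one_div, Real.sqrt_div hc0.le]
    have h6 : 0 < √c := Real.sqrt_pos.2 hc0
    have h7 : 0 < √(k : ℝ) := Real.sqrt_pos.2 hk0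
    have h8 : 2 * Y = √(k : ℝ) / √c := by
      rw [hY, h5]
      field_simp
    rw [h8]
    calc q * ((k : ℝ) * (√(k : ℝ) / √c) * (2 * ε) ^ m)
        = (q * k) * ((√(k : ℝ) / √c) * (2 * ε) ^ m) := by ring
      _ = _ := by rw [hqk]; ring
  have h5 : q * ((k : ℝ) * (2 * Y) * (2 * ε) ^ m) ≤ q * ∫ x in Tube, 1 / (tt x + d) :=
    mul_le_mul_of_nonneg_left h3 hq0.le
  have h6 : volume.real (M.ball p 1) * (3 * lam) ≤ B := by
    rw [hB, mul_comm]
    exact mul_le_mul_of_nonneg_left hBallReal (by positivity)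
  linarith

end Pool.Agent.Lib.MP_e1fd79_gt.H59
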