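import Pool.Agent.Lib.MP_e1fd79_gt.H59.QF

set_option autoImplicit false

open scoped ContDiff Topology
open MeasureTheory Filter

namespace Pool.Agent.Lib.MP_e1fd79_gt.H59

variable {m : ℕ}

theorem tt_nonneg (x : Fin (m + 3) → ℝ) : 0 ≤ tt x := by unfold tt; positivity

theorem zz_nonneg (x : Fin (m + 3) → ℝ) : 0 ≤ zz x := by
  unfold zz
  exact Finset.sum_nonneg (fun i _ => by positivity)

theorem contDiff_tt {k : WithTop ℕ∞} : ContDiff ℝ k (fun x : Fin (m + 3) → ℝ => tt x) := by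
  unfold tt
  fun_prop

theorem contDiff_XX {k : WithTop ℕ∞} (i : Fin (m + 3)) :
    ContDiff ℝ k (fun x : Fin (m + 3) → ℝ => XX x i) := by
  unfold XX
  split_ifs
  · fun_prop
  · fun_prop

theorem contDiff_mu (P : Prof) : ContDiff ℝ ∞ (fun x : Fin (m + 3) → ℝ => P.mu (tt x)) := by
  rw [contDiff_iff_contDiffAt]
  intro x
  exact (P.smooth (tt x) (tt_nonneg x)).comp x contDiff_tt.contDiffAt

theorem contDiff_N (P : Prof) : ContDiff ℝ ∞ (fun x : Fin (m + 3) → ℝ => P.N (tt x)) := by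
  unfold Prof.N
  exact contDiff_const.sub (contDiff_tt.mul (contDiff_mu P))

theorem N_pos (P : Prof) (x : Fin (m + 3) → ℝ) : 0 < P.N (tt x) := P.pos _ (tt_nonneg x)

/-- `1 + t A = 1 / N` -/
theorem one_add_tA (P : Prof) (x : Fin (m + 3) → ℝ) :
    1 + tt x * (P.mu (tt x) / P.N (tt x)) = 1 / P.N (tt x) := by
  have h := N_pos P x
  field_simp
  unfold Prof.N
  ring

theorem s_sq (x v : Fin (m + 3) → ℝ) :
    (x 0 * v 0 + x 1 * v 1) ^ 2 + (x 0 * v 1 - x 1 * v 0) ^ 2 =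
      tt x * (v 0 ^ 2 + v 1 ^ 2) := by
  unfold tt; ring

/-- The planar part of the metric. -/
noncomputable def gp (P : Prof) (x v : Fin (m + 3) → ℝ) : ℝ :=
  v 0 ^ 2 + v 1 ^ 2 + P.mu (tt x) / P.N (tt x) * (x 0 * v 0 + x 1 * v 1) ^ 2

theorem qf_eq (P : Prof) (x v : Fin (m + 3) → ℝ) :
    P.qf x v = gp P x v + P.N (tt x) * v 2 ^ 2 + zz v := by
  unfold Prof.qf gp; ring

/-- (F1) -/
theorem t_mul_gp (P : Prof) (x v : Fin (m + 3) → ℝ) :
    tt x * gp P x v = (x 0 * v 1 - x 1 * v 0) ^ 2 +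
      (x 0 * v 0 + x 1 * v 1) ^ 2 / P.N (tt x) := by
  have h1 := one_add_tA P x
  have h2 := s_sq x v
  unfold gp
  calc tt x * (v 0 ^ 2 + v 1 ^ 2 + P.mu (tt x) / P.N (tt x) * (x 0 * v 0 + x 1 * v 1) ^ 2)
      = tt x * (v 0 ^ 2 + v 1 ^ 2) +
        tt x * (P.mu (tt x) / P.N (tt x)) * (x 0 * v 0 + x 1 * v 1) ^ 2 := by ring
    _ = (x 0 * v 0 + x 1 * v 1) ^ 2 + (x 0 * v 1 - x 1 * v 0) ^ 2 +
        (1 / P.N (tt x) - 1) * (x 0 * v 0 + x 1 * v 1) ^ 2 := by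
        rw [← h2, ← h1]; ring
    _ = _ := by ring

/-- (F3) -/
theorem gp_ge (P : Prof) (x v : Fin (m + 3) → ℝ) :
    min 1 (1 / P.N (tt x)) * (v 0 ^ 2 + v 1 ^ 2) ≤ gp P x v := by
  have h1 := one_add_tA P x
  have h2 := s_sq x v
  have h3 : (x 0 * v 0 + x 1 * v 1) ^ 2 ≤ tt x * (v 0 ^ 2 + v 1 ^ 2) := by
    rw [← h2]; nlinarith [sq_nonneg (x 0 * v 1 - x 1 * v 0)]
  have h4 : 0 ≤ v 0 ^ 2 + v 1 ^ 2 := by positivity
  unfold gp
  rcases le_total 0 (P.mu (tt x) / P.N (tt x)) with hA | hA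
  · have h5 : min 1 (1 / P.N (tt x)) * (v 0 ^ 2 + v 1 ^ 2) ≤ 1 * (v 0 ^ 2 + v 1 ^ 2) :=
      mul_le_mul_of_nonneg_right (min_le_left _ _) h4
    have h6 : 0 ≤ P.mu (tt x) / P.N (tt x) * (x 0 * v 0 + x 1 * v 1) ^ 2 := by positivity
    linarith
  · have h5 : min 1 (1 / P.N (tt x)) * (v 0 ^ 2 + v 1 ^ 2) ≤
        1 / P.N (tt x) * (v 0 ^ 2 + v 1 ^ 2) :=
      mul_le_mul_of_nonneg_right (min_le_right _ _) h4
    have h6 : P.mu (tt x) / P.N (tt x) * (tt x * (v 0 ^ 2 + v 1 ^ 2)) ≤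
        P.mu (tt x) / P.N (tt x) * (x 0 * v 0 + x 1 * v 1) ^ 2 :=
      mul_le_mul_of_nonpos_left h3 hA
    rw [← h1] at h5 ⊢
    nlinarith

/-- (F2) -/
theorem gp_le (P : Prof) (x v : Fin (m + 3) → ℝ) :
    gp P x v ≤ max 1 (1 / P.N (tt x)) * (v 0 ^ 2 + v 1 ^ 2) := by
  have h1 := one_add_tA P x
  have h2 := s_sq x v
  have h3 : (x 0 * v 0 + x 1 * v 1) ^ 2 ≤ tt x * (v 0 ^ 2 + v 1 ^ 2) := by
    rw [← h2]; nlinarith [sq_nonneg (x 0 * v 1 - x 1 * v 0)]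
  have h4 : 0 ≤ v 0 ^ 2 + v 1 ^ 2 := by positivity
  unfold gp
  rcases le_total 0 (P.mu (tt x) / P.N (tt x)) with hA | hA
  · have h5 : 1 / P.N (tt x) * (v 0 ^ 2 + v 1 ^ 2) ≤
        max 1 (1 / P.N (tt x)) * (v 0 ^ 2 + v 1 ^ 2) :=
      mul_le_mul_of_nonneg_right (le_max_right _ _) h4
    have h6 : P.mu (tt x) / P.N (tt x) * (x 0 * v 0 + x 1 * v 1) ^ 2 ≤
        P.mu (tt x) / P.N (tt x) * (tt x * (v 0 ^ 2 + v 1 ^ 2)) :=
      mul_le_mul_of_nonneg_left h3 hA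
    rw [← h1] at h5
    rw [← h1]
    nlinarith
  · have h5 : 1 * (v 0 ^ 2 + v 1 ^ 2) ≤ max 1 (1 / P.N (tt x)) * (v 0 ^ 2 + v 1 ^ 2) :=
      mul_le_mul_of_nonneg_right (le_max_left _ _) h4
    have h6 : P.mu (tt x) / P.N (tt x) * (x 0 * v 0 + x 1 * v 1) ^ 2 ≤ 0 :=
      mul_nonpos_of_nonpos_of_nonneg hA (by positivity)
    linarith

theorem gp_nonneg (P : Prof) (x v : Fin (m + 3) → ℝ) : 0 ≤ gp P x v := by
  refine le_trans ?_ (gp_ge P x v)
  have := N_pos P x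
  positivity

theorem qf_pos (P : Prof) (x v : Fin (m + 3) → ℝ) (hv : v ≠ 0) : 0 < P.qf x v := by
  by_contra hcon
  push Not at hcon
  apply hv
  have h1 := gp_nonneg P x v
  have h2 := N_pos P x
  have h3 := zz_nonneg v
  have h4 : 0 ≤ P.N (tt x) * v 2 ^ 2 := by positivity
  rw [qf_eq] at hcon
  have h5 : gp P x v = 0 := by linarith
  have h6 : P.N (tt x) * v 2 ^ 2 = 0 := by linarith
  have h7 : zz v = 0 := by linarith
  have h8 : v 2 = 0 := by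
    rcases mul_eq_zero.1 h6 with h | h
    · linarith
    · exact pow_eq_zero_iff (two_ne_zero) |>.1 h
  have h9 := gp_ge P x v
  have h10 : 0 < min 1 (1 / P.N (tt x)) := by positivity
  have h11 : v 0 ^ 2 + v 1 ^ 2 ≤ 0 := by
    by_contra hh
    push Not at hh
    have := mul_pos h10 hh
    linarith
  have h12 : v 0 = 0 := by nlinarith [sq_nonneg (v 0), sq_nonneg (v 1)]
  have h13 : v 1 = 0 := by nlinarith [sq_nonneg (v 0), sq_nonneg (v 1)]
  have h14 : ∀ i : Fin m, v i.succ.succ.succ = 0 := by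
    intro i
    unfold zz at h7
    rw [Finset.sum_eq_zero_iff_of_nonneg (fun i _ => by positivity)] at h7
    exact pow_eq_zero_iff (two_ne_zero) |>.1 (h7 i (Finset.mem_univ i))
  funext i
  simp only [Pi.zero_apply]
  refine Fin.cases ?_ (fun i => ?_) i
  · exact h12
  refine Fin.cases ?_ (fun i => ?_) i
  · exact h13
  refine Fin.cases ?_ (fun i => ?_) i
  · exact h8
  exact h14 i

theorem met_holds : MetStatement := by
  intro P m
  refine ⟨⟨P.gM, ?_, ?_, ?_⟩, rfl⟩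
  · intro i j
    unfold Prof.gM
    refine (contDiff_const.add (((contDiff_mu P).div (contDiff_N P) (fun x => (N_pos P x).ne')).mul
      ((contDiff_XX i).mul (contDiff_XX j)))).add
      (((contDiff_N P).sub contDiff_const).mul contDiff_const)
  · intro x i j
    unfold Prof.gM
    simp only [eq_comm]
    ring
  · intro x v hv
    rw [qf_holds P m x v]
    exact qf_pos P x v hv

end Pool.Agent.Lib.MP_e1fd79_gt.H59
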