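import Pool.Agent.Lib.MP_e1fd79_gt.Interfaces

set_option autoImplicit false

open scoped ContDiff Topology
open MeasureTheory Filter

namespace Pool.Agent.Lib.MP_e1fd79_gt.H59

variable {m : ℕ}

/-- Sums of functions vanishing beyond the index `2`. -/
theorem sum_three (f : Fin (m + 3) → ℝ) (h : ∀ i : Fin (m + 3), 3 ≤ i.val → f i = 0) :
    ∑ i, f i = f 0 + f 1 + f 2 := by
  rw [Fin.sum_univ_succ, Fin.sum_univ_succ, Fin.sum_univ_succ]
  have h0 : ∀ i : Fin m, f i.succ.succ.succ = 0 := by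
    intro i
    apply h
    simp
  rw [Finset.sum_eq_zero (fun i _ => h0 i)]
  have h1 : (Fin.succ (0 : Fin (m + 1 + 1)) : Fin (m + 3)) = 1 := rfl
  have h2 : (Fin.succ (Fin.succ (0 : Fin (m + 1))) : Fin (m + 3)) = 2 := rfl
  rw [h1, h2]
  ring

theorem sum_sq (v : Fin (m + 3) → ℝ) :
    ∑ i, v i ^ 2 = v 0 ^ 2 + v 1 ^ 2 + v 2 ^ 2 + zz v := by
  rw [Fin.sum_univ_succ, Fin.sum_univ_succ, Fin.sum_univ_succ]
  have h1 : (Fin.succ (0 : Fin (m + 1 + 1)) : Fin (m + 3)) = 1 := rfl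
  have h2 : (Fin.succ (Fin.succ (0 : Fin (m + 1))) : Fin (m + 3)) = 2 := rfl
  rw [h1, h2]
  unfold zz
  ring

theorem XX_zero (x : Fin (m + 3) → ℝ) : XX x 0 = x 0 := by simp [XX]
theorem XX_one (x : Fin (m + 3) → ℝ) : XX x 1 = x 1 := by simp [XX]
theorem val_two : ((2 : Fin (m + 3)) : ℕ) = 2 := by
  rw [show (2 : Fin (m + 3)) = Fin.succ (Fin.succ 0) from rfl]; simp
theorem XX_two (x : Fin (m + 3) → ℝ) : XX x 2 = 0 := by
  unfold XX
  rw [if_neg]
  rw [val_two]
  norm_num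
theorem XX_ge (x : Fin (m + 3) → ℝ) (i : Fin (m + 3)) (h : 2 ≤ i.val) : XX x i = 0 := by
  simp [XX]; omega
theorem EE_zero : EE (0 : Fin (m + 3)) = 0 := by simp [EE]
theorem EE_one : EE (1 : Fin (m + 3)) = 0 := by simp [EE]
theorem EE_two : EE (2 : Fin (m + 3)) = 1 := by
  unfold EE
  rw [if_pos val_two]
theorem EE_ge (i : Fin (m + 3)) (h : 3 ≤ i.val) : EE i = 0 := by
  simp [EE]; omega

theorem qf_holds : QFStatement := by
  intro P m x v
  have e1 : ∀ i j : Fin (m + 3), P.gM x i j * v i * v j =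
      (if i = j then 1 else 0) * v i * v j +
      P.mu (tt x) / P.N (tt x) * ((XX x i * v i) * (XX x j * v j)) +
      (P.N (tt x) - 1) * ((EE i * v i) * (EE j * v j)) := by
    intro i j
    unfold Prof.gM
    ring
  have e2 : ∑ i, ∑ j, P.gM x i j * v i * v j =
      ∑ i, v i ^ 2 + P.mu (tt x) / P.N (tt x) * (∑ i, XX x i * v i) ^ 2 +
      (P.N (tt x) - 1) * (∑ i, EE i * v i) ^ 2 := by
    simp_rw [e1, Finset.sum_add_distrib]
    congr 1
    · congr 1
      · apply Finset.sum_congr rfl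
        intro i _
        simp [pow_two]
      · rw [pow_two, Finset.sum_mul_sum, Finset.mul_sum]
        apply Finset.sum_congr rfl
        intro i _
        rw [Finset.mul_sum]
    · rw [pow_two, Finset.sum_mul_sum, Finset.mul_sum]
      apply Finset.sum_congr rfl
      intro i _
      rw [Finset.mul_sum]
  rw [e2, sum_sq, sum_three (fun i => XX x i * v i), sum_three (fun i => EE i * v i)]
  · simp only [XX_zero, XX_one, XX_two, EE_zero, EE_one, EE_two]
    unfold Prof.qf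
    ring
  · intro i hi; rw [EE_ge i hi]; ring
  · intro i hi; rw [XX_ge x i (by omega)]; ring

end Pool.Agent.Lib.MP_e1fd79_gt.H59
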