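import Pool.Agent.Lib.MP_e1fd79_gt.H59.Met

set_option autoImplicit false

open scoped ContDiff Topology
open MeasureTheory Filter

namespace Pool.Agent.Lib.MP_e1fd79_gt.H59

variable {m : ℕ}

/-- indicator of the index `0` -/
def ea (i : Fin (m + 3)) : ℝ := if i.val = 0 then 1 else 0
/-- indicator of the index `1` -/
def eb (i : Fin (m + 3)) : ℝ := if i.val = 1 then 1 else 0

theorem ea_zero : ea (0 : Fin (m + 3)) = 1 := by simp [ea]
theorem ea_one : ea (1 : Fin (m + 3)) = 0 := by simp [ea]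
theorem ea_two : ea (2 : Fin (m + 3)) = 0 := by unfold ea; rw [val_two]; norm_num
theorem eb_zero : eb (0 : Fin (m + 3)) = 0 := by simp [eb]
theorem eb_one : eb (1 : Fin (m + 3)) = 1 := by simp [eb]
theorem eb_two : eb (2 : Fin (m + 3)) = 0 := by unfold eb; rw [val_two]; norm_num
theorem ea_ge (i : Fin (m + 3)) (h : 3 ≤ i.val) : ea i = 0 := by
  unfold ea; rw [if_neg]; omega
theorem eb_ge (i : Fin (m + 3)) (h : 3 ≤ i.val) : eb i = 0 := by
  unfold eb; rw [if_neg]; omega

theorem XX_eq (x : Fin (m + 3) → ℝ) (i : Fin (m + 3)) : XX x i = x 0 * ea i + x 1 * eb i := by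
  unfold XX ea eb
  rcases Nat.lt_or_ge i.val 2 with h | h
  · rw [if_pos h]
    have h2 : i.val = 0 ∨ i.val = 1 := by omega
    rcases h2 with h2 | h2
    · have : i = 0 := Fin.ext (by simpa using h2)
      subst this
      simp
    · have : i = 1 := Fin.ext (by simpa using h2)
      subst this
      simp
  · rw [if_neg (by omega), if_neg (by omega), if_neg (by omega)]
    ring

/-- the projection to the first two coordinates -/
def PP (i j : Fin (m + 3)) : ℝ := ea i * ea j + eb i * eb j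

theorem XX_single (k i : Fin (m + 3)) : XX (Pi.single k 1) i = PP k i := by
  rw [XX_eq]
  unfold PP ea eb
  congr 1
  · congr 1
    simp only [Pi.single_apply]
    by_cases h : k.val = 0
    · rw [if_pos h, if_pos]
      exact Fin.ext (by simpa using h.symm)
    · rw [if_neg h, if_neg]
      intro hh
      apply h
      rw [← hh]
      simp
  · congr 1
    simp only [Pi.single_apply]
    by_cases h : k.val = 1
    · rw [if_pos h, if_pos]
      exact Fin.ext (by simpa using h.symm)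
    · rw [if_neg h, if_neg]
      intro hh
      apply h
      rw [← hh]
      simp

/-- `f` is differentiable at `x` with partial derivatives `G`. -/
def HP {n : ℕ} (f : (Fin n → ℝ) → ℝ) (x : Fin n → ℝ) (G : Fin n → ℝ) : Prop :=
  DifferentiableAt ℝ f x ∧ ∀ k, pd k f x = G k

theorem HP.congr {n : ℕ} {f : (Fin n → ℝ) → ℝ} {x : Fin n → ℝ} {G G' : Fin n → ℝ}
    (h : HP f x G) (hG : ∀ k, G k = G' k) : HP f x G' := ⟨h.1, fun k => (h.2 k).trans (hG k)⟩

theorem HP.const {n : ℕ} (c : ℝ) (x : Fin n → ℝ) : HP (fun _ => c) x (fun _ => 0) := by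
  refine ⟨differentiableAt_const c, fun k => ?_⟩
  unfold pd
  simp

theorem HP.add {n : ℕ} {f g : (Fin n → ℝ) → ℝ} {x : Fin n → ℝ} {F G : Fin n → ℝ}
    (hf : HP f x F) (hg : HP g x G) : HP (fun z => f z + g z) x (fun k => F k + G k) := by
  refine ⟨hf.1.add hg.1, fun k => ?_⟩
  have h1 := hf.2 k
  have h2 := hg.2 k
  unfold pd at *
  rw [fderiv_fun_add hf.1 hg.1]
  simp [h1, h2]

theorem HP.sub {n : ℕ} {f g : (Fin n → ℝ) → ℝ} {x : Fin n → ℝ} {F G : Fin n → ℝ}
    (hf : HP f x F) (hg : HP g x G) : HP (fun z => f z - g z) x (fun k => F k - G k) := by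
  refine ⟨hf.1.sub hg.1, fun k => ?_⟩
  have h1 := hf.2 k
  have h2 := hg.2 k
  unfold pd at *
  rw [fderiv_fun_sub hf.1 hg.1]
  simp [h1, h2]

theorem HP.mul {n : ℕ} {f g : (Fin n → ℝ) → ℝ} {x : Fin n → ℝ} {F G : Fin n → ℝ}
    (hf : HP f x F) (hg : HP g x G) :
    HP (fun z => f z * g z) x (fun k => F k * g x + f x * G k) := by
  refine ⟨hf.1.mul hg.1, fun k => ?_⟩
  have h1 := hf.2 k
  have h2 := hg.2 k
  unfold pd at *
  rw [fderiv_fun_mul hf.1 hg.1]
  simp only [add_apply, smul_apply, smul_eq_mul, h1, h2]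
  ring

theorem hasFDerivAt_tt (x : Fin (m + 3) → ℝ) :
    HasFDerivAt (fun z : Fin (m + 3) → ℝ => tt z)
      ((2 * x 0) • (ContinuousLinearMap.proj 0 : (Fin (m + 3) → ℝ) →L[ℝ] ℝ) +
        (2 * x 1) • (ContinuousLinearMap.proj 1 : (Fin (m + 3) → ℝ) →L[ℝ] ℝ)) x := by
  unfold tt
  have h0 : HasFDerivAt (fun z : Fin (m + 3) → ℝ => z 0)
    (ContinuousLinearMap.proj 0 : (Fin (m + 3) → ℝ) →L[ℝ] ℝ) x := hasFDerivAt_apply 0 x
  have h1 : HasFDerivAt (fun z : Fin (m + 3) → ℝ => z 1)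
    (ContinuousLinearMap.proj 1 : (Fin (m + 3) → ℝ) →L[ℝ] ℝ) x := hasFDerivAt_apply 1 x
  have h2 : HasFDerivAt (fun z : Fin (m + 3) → ℝ => z 0 ^ 2) _ x := h0.pow 2
  have h3 : HasFDerivAt (fun z : Fin (m + 3) → ℝ => z 1 ^ 2) _ x := h1.pow 2
  have := h2.fun_add h3
  simpa using this

theorem tt_single (x : Fin (m + 3) → ℝ) (k : Fin (m + 3)) :
    ((2 * x 0) • (ContinuousLinearMap.proj 0 : (Fin (m + 3) → ℝ) →L[ℝ] ℝ) +
        (2 * x 1) • (ContinuousLinearMap.proj 1 : (Fin (m + 3) → ℝ) →L[ℝ] ℝ)) (Pi.single k 1) =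
      2 * XX x k := by
  have h0 : (Pi.single k 1 : Fin (m + 3) → ℝ) 0 = ea k := by
    unfold ea
    rw [Pi.single_apply]
    by_cases h : k.val = 0
    · rw [if_pos h, if_pos]
      exact Fin.ext (by simpa using h.symm)
    · rw [if_neg h, if_neg]
      intro hh
      apply h
      rw [← hh]
      simp
  have h1 : (Pi.single k 1 : Fin (m + 3) → ℝ) 1 = eb k := by
    unfold eb
    rw [Pi.single_apply]
    by_cases h : k.val = 1
    · rw [if_pos h, if_pos]
      exact Fin.ext (by simpa using h.symm)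
    · rw [if_neg h, if_neg]
      intro hh
      apply h
      rw [← hh]
      simp
  simp only [add_apply, smul_apply, smul_eq_mul,
    ContinuousLinearMap.proj_apply, h0, h1]
  rw [XX_eq]
  ring

theorem HP.comp_tt {u : ℝ → ℝ} {u' : ℝ} {x : Fin (m + 3) → ℝ} (h : HasDerivAt u u' (tt x)) :
    HP (fun z => u (tt z)) x (fun k => u' * (2 * XX x k)) := by
  have h1 := h.comp_hasFDerivAt x (hasFDerivAt_tt x)
  refine ⟨h1.differentiableAt, fun k => ?_⟩
  unfold pd
  have h2 : fderiv ℝ (fun z => u (tt z)) x = _ := h1.fderiv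
  rw [h2]
  rw [smul_apply, tt_single]
  rfl

theorem HP.XX (x : Fin (m + 3) → ℝ) (i : Fin (m + 3)) :
    HP (fun z => MP_e1fd79_gt.XX z i) x (fun k => PP k i) := by
  have h0 : HasFDerivAt (fun z : Fin (m + 3) → ℝ => z 0)
    (ContinuousLinearMap.proj 0 : (Fin (m + 3) → ℝ) →L[ℝ] ℝ) x := hasFDerivAt_apply 0 x
  have h1 : HasFDerivAt (fun z : Fin (m + 3) → ℝ => z 1)
    (ContinuousLinearMap.proj 1 : (Fin (m + 3) → ℝ) →L[ℝ] ℝ) x := hasFDerivAt_apply 1 x
  have h2 := (h0.mul_const (ea i)).add (h1.mul_const (eb i))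
  have h3 : (fun z : Fin (m + 3) → ℝ => MP_e1fd79_gt.XX z i) =
      fun z => z 0 * ea i + z 1 * eb i := by
    funext z
    exact XX_eq z i
  rw [h3]
  refine ⟨h2.differentiableAt, fun k => ?_⟩
  unfold pd
  have h4 : fderiv ℝ (fun z : Fin (m + 3) → ℝ => z 0 * ea i + z 1 * eb i) x = _ := h2.fderiv
  rw [h4]
  have h5 := XX_single k i
  rw [XX_eq] at h5
  simp only [add_apply, smul_apply, smul_eq_mul,
    ContinuousLinearMap.proj_apply]
  rw [← h5]
  ring

/-- Bilinear reduction of sums with the inverse matrix. -/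
theorem PP_symm (i j : Fin (m + 3)) : PP i j = PP j i := by unfold PP; ring

end Pool.Agent.Lib.MP_e1fd79_gt.H59
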