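import Pool.Agent.Lib.MP_e1fd79_gt.H59.Ric1

set_option autoImplicit false

open scoped ContDiff Topology
open MeasureTheory Filter

namespace Pool.Agent.Lib.MP_e1fd79_gt.H59

variable {m : ℕ}

theorem sumX (x : Fin (m + 3) → ℝ) (G : Fin (m + 3) → ℝ) :
    ∑ l, XX x l * G l = x 0 * G 0 + x 1 * G 1 := by
  rw [sum_three]
  · rw [XX_zero, XX_one, XX_two]; ring
  · intro i hi; rw [XX_ge x i (by omega)]; ring

theorem sumE (G : Fin (m + 3) → ℝ) : ∑ l, EE l * G l = G 2 := by
  rw [sum_three]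
  · rw [EE_zero, EE_one, EE_two]; ring
  · intro i hi; rw [EE_ge i hi]; ring

theorem del_zero (j : Fin (m + 3)) : (if (0 : Fin (m + 3)) = j then (1 : ℝ) else 0) = ea j := by
  unfold ea
  by_cases h : j.val = 0
  · rw [if_pos h, if_pos]
    exact Fin.ext (by simpa using h.symm)
  · rw [if_neg h, if_neg]
    intro hh
    apply h
    rw [← hh]
    simp

theorem del_one (j : Fin (m + 3)) : (if (1 : Fin (m + 3)) = j then (1 : ℝ) else 0) = eb j := by
  unfold eb
  by_cases h : j.val = 1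
  · rw [if_pos h, if_pos]
    exact Fin.ext (by simpa using h.symm)
  · rw [if_neg h, if_neg]
    intro hh
    apply h
    rw [← hh]
    simp

theorem del_two (j : Fin (m + 3)) : (if (2 : Fin (m + 3)) = j then (1 : ℝ) else 0) = EE j := by
  unfold EE
  by_cases h : j.val = 2
  · rw [if_pos h, if_pos]
    exact Fin.ext (by rw [val_two]; exact h.symm)
  · rw [if_neg h, if_neg]
    intro hh
    apply h
    rw [← hh]
    exact val_two

/-- The inverse matrix. -/
noncomputable def gI (P : Prof) (x : Fin (m + 3) → ℝ) : Matrix (Fin (m + 3)) (Fin (m + 3)) ℝ :=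
  fun i j => (if i = j then 1 else 0) + (-P.mu (tt x)) * (XX x i * XX x j) +
    (1 / P.N (tt x) - 1) * (EE i * EE j)

theorem gM_inv (P : Prof) (x : Fin (m + 3) → ℝ) : (P.gM x)⁻¹ = gI P x := by
  apply Matrix.inv_eq_right_inv
  ext i j
  rw [Matrix.mul_apply, Matrix.one_apply]
  have hN := (N_pos P x).ne'
  have e1 : ∀ l, P.gM x i l * gI P x l j = (if i = l then 1 else 0) * gI P x l j +
      P.mu (tt x) / P.N (tt x) * XX x i * (XX x l * gI P x l j) +
      (P.N (tt x) - 1) * EE i * (EE l * gI P x l j) := by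
    intro l
    unfold Prof.gM
    ring
  simp_rw [e1, Finset.sum_add_distrib]
  rw [← Finset.mul_sum, ← Finset.mul_sum, sumX, sumE]
  simp only [ite_mul, one_mul, zero_mul, Finset.sum_ite_eq, Finset.mem_univ, if_true]
  unfold gI
  rw [del_zero, del_one, del_two, XX_zero, XX_one, XX_two, EE_zero, EE_one, EE_two,
    XX_eq x i, XX_eq x j]
  have hNt : P.mu (tt x) * (x 0 ^ 2 + x 1 ^ 2) = 1 - P.N (tt x) := by
    unfold Prof.N tt; ring
  have e2 : P.mu (tt x) / P.N (tt x) * (1 - P.mu (tt x) * (x 0 ^ 2 + x 1 ^ 2)) = P.mu (tt x) := by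
    rw [hNt]; field_simp; ring
  have e3 : (P.N (tt x) - 1) * (1 / P.N (tt x)) = 1 - 1 / P.N (tt x) := by
    field_simp
  linear_combination (x 0 * ea i + x 1 * eb i) * (x 0 * ea j + x 1 * eb j) * e2 +
    EE i * EE j * e3

/-- Contraction with the inverse matrix. -/
theorem sum_gI (P : Prof) (x : Fin (m + 3) → ℝ) (k : Fin (m + 3)) (F : Fin (m + 3) → ℝ) :
    ∑ l, gI P x k l * F l = F k - P.mu (tt x) * XX x k * (x 0 * F 0 + x 1 * F 1) +
      (1 / P.N (tt x) - 1) * EE k * F 2 := by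
  have e1 : ∀ l, gI P x k l * F l = (if k = l then 1 else 0) * F l +
      (-P.mu (tt x)) * XX x k * (XX x l * F l) +
      (1 / P.N (tt x) - 1) * EE k * (EE l * F l) := by
    intro l
    unfold gI
    ring
  simp_rw [e1, Finset.sum_add_distrib]
  rw [← Finset.mul_sum, ← Finset.mul_sum, sumX, sumE]
  simp only [ite_mul, one_mul, zero_mul, Finset.sum_ite_eq, Finset.mem_univ, if_true]
  ring

theorem hasDerivAt_mu (P : Prof) (t : ℝ) (ht : 0 ≤ t) : HasDerivAt P.mu (deriv P.mu t) t :=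
  ((P.smooth t ht).differentiableAt (by simp)).hasDerivAt

theorem hasDerivAt_N' (P : Prof) (t : ℝ) (ht : 0 ≤ t) :
    HasDerivAt P.N (-(P.mu t) - t * deriv P.mu t) t := by
  have h := ((hasDerivAt_id t).mul (hasDerivAt_mu P t ht)).const_sub 1
  have h2 : HasDerivAt P.N (-(1 * P.mu t + id t * deriv P.mu t)) t := h
  convert h2 using 1
  simp only [id]
  ring

theorem deriv_N (P : Prof) (t : ℝ) (ht : 0 ≤ t) : deriv P.N t = -(P.mu t) - t * deriv P.mu t :=
  (hasDerivAt_N' P t ht).deriv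

theorem hasDerivAt_N (P : Prof) (t : ℝ) (ht : 0 ≤ t) : HasDerivAt P.N (deriv P.N t) t := by
  rw [deriv_N P t ht]
  exact hasDerivAt_N' P t ht

/-- `A = mu / N` -/
noncomputable def AA (P : Prof) (t : ℝ) : ℝ := P.mu t / P.N t

noncomputable def AA' (P : Prof) (t : ℝ) : ℝ :=
  (deriv P.mu t * P.N t - P.mu t * deriv P.N t) / P.N t ^ 2

theorem hasDerivAt_AA (P : Prof) (t : ℝ) (ht : 0 ≤ t) : HasDerivAt (AA P) (AA' P t) t :=
  (hasDerivAt_mu P t ht).div (hasDerivAt_N P t ht) (P.pos t ht).ne'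

theorem hp_g (P : Prof) (x : Fin (m + 3) → ℝ) (i j : Fin (m + 3)) :
    HP (fun z => P.gM z i j) x (fun k =>
      AA' P (tt x) * (2 * XX x k) * (XX x i * XX x j) +
      AA P (tt x) * (PP k i * XX x j + XX x i * PP k j) +
      deriv P.N (tt x) * (2 * XX x k) * (EE i * EE j)) := by
  have h1 := HP.comp_tt (hasDerivAt_AA P (tt x) (tt_nonneg x))
  have h2 := HP.comp_tt (hasDerivAt_N P (tt x) (tt_nonneg x))
  have h3 := (HP.XX x i).mul (HP.XX x j)
  have h4 := ((HP.const (if i = j then 1 else 0) x).add (h1.mul h3)).add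
    ((h2.sub (HP.const 1 x)).mul (HP.const (EE i * EE j) x))
  exact h4.congr (fun k => by ring)

/-- The coefficient functions of the Christoffel symbols. -/
noncomputable def al (P : Prof) (t : ℝ) : ℝ := deriv P.mu t - P.mu t * deriv P.N t / P.N t
noncomputable def be (P : Prof) (t : ℝ) : ℝ := deriv P.N t / P.N t
noncomputable def ga (P : Prof) (t : ℝ) : ℝ := P.N t * deriv P.N t

/-- The closed form of the Christoffel symbols. -/
noncomputable def CC (P : Prof) (k i j : Fin (m + 3)) (x : Fin (m + 3) → ℝ) : ℝ :=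
  XX x k * (al P (tt x) * (XX x i * XX x j) + P.mu (tt x) * PP i j - ga P (tt x) * (EE i * EE j)) +
    be P (tt x) * (EE k * (XX x i * EE j + XX x j * EE i))

theorem PP_zero (j : Fin (m + 3)) : PP 0 j = ea j := by
  unfold PP; rw [ea_zero, eb_zero]; ring
theorem PP_one (j : Fin (m + 3)) : PP 1 j = eb j := by
  unfold PP; rw [ea_one, eb_one]; ring
theorem PP_two (j : Fin (m + 3)) : PP 2 j = 0 := by
  unfold PP; rw [ea_two, eb_two]; ring

theorem christoffel_eq (P : Prof) (M : RMetric (m + 3)) (hM : M.g = P.gM)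
    (k i j : Fin (m + 3)) (x : Fin (m + 3) → ℝ) : M.christoffel k i j x = CC P k i j x := by
  unfold RMetric.christoffel
  rw [hM, gM_inv, sum_gI]
  simp only [(hp_g P x _ _).2]
  have hN := (N_pos P x).ne'
  have hNt : P.N (tt x) = 1 - tt x * P.mu (tt x) := rfl
  simp only [XX_zero, XX_one, XX_two, EE_zero, EE_one, EE_two, PP_zero, PP_one, PP_two]
  have hA : AA P (tt x) * P.N (tt x) = P.mu (tt x) := by
    unfold AA; field_simp
  have hA' : AA' P (tt x) * P.N (tt x) = al P (tt x) := by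
    unfold AA' al; field_simp
  have hb : be P (tt x) * P.N (tt x) = deriv P.N (tt x) := by
    unfold be; field_simp
  have hb2 : be P (tt x) = deriv P.N (tt x) * (1 / P.N (tt x)) := by
    unfold be; ring
  have hg : ga P (tt x) = P.N (tt x) * deriv P.N (tt x) := rfl
  unfold CC
  rw [← hA', hb2, hg]
  have htx : tt x = x 0 ^ 2 + x 1 ^ 2 := rfl
  unfold PP
  rw [XX_eq x i, XX_eq x j, XX_eq x k]
  generalize AA P (tt x) = A at *
  generalize AA' P (tt x) = A' at *
  generalize deriv P.N (tt x) = D at *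
  generalize P.mu (tt x) = mu at *
  generalize P.N (tt x) = N at *
  generalize tt x = t at *
  subst htx
  rw [ea_zero, ea_one, ea_two, eb_zero, eb_one, eb_two]
  linear_combination (-((x 0 * ea k + x 1 * eb k) *
    (A' * ((x 0 * ea i + x 1 * eb i) * (x 0 * ea j + x 1 * eb j)) +
      A * (ea i * ea j + eb i * eb j) - D * (EE i * EE j)))) * hNt +
    (x 0 * ea k + x 1 * eb k) * (ea i * ea j + eb i * eb j) * hA

end Pool.Agent.Lib.MP_e1fd79_gt.H59
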