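import Pool.Agent.Lib.MP_e1fd79_gt.H59.Ric2

set_option autoImplicit false
set_option linter.unusedSimpArgs false

open scoped ContDiff Topology
open MeasureTheory Filter

namespace Pool.Agent.Lib.MP_e1fd79_gt.H59

variable {m : ℕ}

theorem contDiffAt_deriv {f : ℝ → ℝ} {t : ℝ} (h : ContDiffAt ℝ ∞ f t) :
    ContDiffAt ℝ ∞ (deriv f) t := by
  have h1 : ContDiffAt ℝ ∞ (fderiv ℝ f) t := h.fderiv_right (by simp)
  have h2 : ContDiffAt ℝ ∞ (fun s => fderiv ℝ f s 1) t := h1.clm_apply contDiffAt_const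
  exact h2

theorem contDiffAt_N (P : Prof) (t : ℝ) (ht : 0 ≤ t) : ContDiffAt ℝ ∞ P.N t := by
  unfold Prof.N
  exact contDiffAt_const.sub (contDiffAt_id.mul (P.smooth t ht))

theorem hasDerivAt_mu1 (P : Prof) (t : ℝ) (ht : 0 ≤ t) :
    HasDerivAt (deriv P.mu) (deriv (deriv P.mu) t) t :=
  ((contDiffAt_deriv (P.smooth t ht)).differentiableAt (by simp)).hasDerivAt

theorem hasDerivAt_N1 (P : Prof) (t : ℝ) (ht : 0 ≤ t) :
    HasDerivAt (deriv P.N) (deriv (deriv P.N) t) t :=
  ((contDiffAt_deriv (contDiffAt_N P t ht)).differentiableAt (by simp)).hasDerivAt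

theorem deriv_N1 (P : Prof) (t : ℝ) (ht : 0 ≤ t) :
    deriv (deriv P.N) t = -(2 * deriv P.mu t) - t * deriv (deriv P.mu) t := by
  have h1 : ContDiffAt ℝ 1 P.mu t := (P.smooth t ht).of_le (by simp)
  have h2 : ∀ᶠ s in 𝓝 t, ContDiffAt ℝ 1 P.mu s := h1.eventually (by simp)
  have h3 : deriv P.N =ᶠ[𝓝 t] fun s => -(P.mu s) - s * deriv P.mu s := by
    filter_upwards [h2] with s hs
    have hd : HasDerivAt P.mu (deriv P.mu s) s := (hs.differentiableAt (by simp)).hasDerivAt
    have h := ((hasDerivAt_id s).mul hd).const_sub 1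
    have h2 : HasDerivAt P.N (-(1 * P.mu s + id s * deriv P.mu s)) s := h
    rw [h2.deriv]
    simp only [id]
    ring
  rw [h3.deriv_eq]
  have h4 : HasDerivAt (fun s => -(P.mu s) - s * deriv P.mu s)
      (-(deriv P.mu t) - (1 * deriv P.mu t + t * deriv (deriv P.mu) t)) t :=
    (hasDerivAt_mu P t ht).fun_neg.fun_sub ((hasDerivAt_id t).fun_mul (hasDerivAt_mu1 P t ht))
  rw [h4.deriv]
  ring

noncomputable def al' (P : Prof) (t : ℝ) : ℝ := deriv (deriv P.mu) t -
  ((deriv P.mu t * deriv P.N t + P.mu t * deriv (deriv P.N) t) * P.N t -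
    P.mu t * deriv P.N t * deriv P.N t) / P.N t ^ 2
noncomputable def be' (P : Prof) (t : ℝ) : ℝ :=
  (deriv (deriv P.N) t * P.N t - deriv P.N t * deriv P.N t) / P.N t ^ 2
noncomputable def ga' (P : Prof) (t : ℝ) : ℝ :=
  deriv P.N t * deriv P.N t + P.N t * deriv (deriv P.N) t

theorem hasDerivAt_al (P : Prof) (t : ℝ) (ht : 0 ≤ t) : HasDerivAt (al P) (al' P t) t :=
  (hasDerivAt_mu1 P t ht).fun_sub (((hasDerivAt_mu P t ht).fun_mul (hasDerivAt_N1 P t ht)).fun_div
    (hasDerivAt_N P t ht) (P.pos t ht).ne')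

theorem hasDerivAt_be (P : Prof) (t : ℝ) (ht : 0 ≤ t) : HasDerivAt (be P) (be' P t) t :=
  (hasDerivAt_N1 P t ht).fun_div (hasDerivAt_N P t ht) (P.pos t ht).ne'

theorem hasDerivAt_ga (P : Prof) (t : ℝ) (ht : 0 ≤ t) : HasDerivAt (ga P) (ga' P t) t :=
  (hasDerivAt_N P t ht).fun_mul (hasDerivAt_N1 P t ht)

/-- The partial derivative `∂_l Γ^k_{ij}`. -/
noncomputable def DC (P : Prof) (l k i j : Fin (m + 3)) (x : Fin (m + 3) → ℝ) : ℝ :=
  PP l k * (al P (tt x) * (XX x i * XX x j) + P.mu (tt x) * PP i j - ga P (tt x) * (EE i * EE j)) +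
  XX x k * (al' P (tt x) * (2 * XX x l) * (XX x i * XX x j) +
    al P (tt x) * (PP l i * XX x j + XX x i * PP l j) +
    deriv P.mu (tt x) * (2 * XX x l) * PP i j - ga' P (tt x) * (2 * XX x l) * (EE i * EE j)) +
  be' P (tt x) * (2 * XX x l) * (EE k * (XX x i * EE j + XX x j * EE i)) +
  be P (tt x) * (EE k * (PP l i * EE j + PP l j * EE i))

theorem hp_CC (P : Prof) (x : Fin (m + 3) → ℝ) (k i j : Fin (m + 3)) :
    HP (CC P k i j) x (fun l => DC P l k i j x) := by
  have h1 := HP.comp_tt (hasDerivAt_al P (tt x) (tt_nonneg x))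
  have h2 := HP.comp_tt (hasDerivAt_be P (tt x) (tt_nonneg x))
  have h3 := HP.comp_tt (hasDerivAt_ga P (tt x) (tt_nonneg x))
  have h4 := HP.comp_tt (hasDerivAt_mu P (tt x) (tt_nonneg x))
  have hk := HP.XX x k
  have hi := HP.XX x i
  have hj := HP.XX x j
  have h5 := ((h1.mul (hi.mul hj)).add (h4.mul (HP.const (PP i j) x))).sub
    (h3.mul (HP.const (EE i * EE j) x))
  have h6 := (hk.mul h5).add (h2.mul ((HP.const (EE k) x).mul
    ((hi.mul (HP.const (EE j) x)).add (hj.mul (HP.const (EE i) x)))))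
  exact h6.congr (fun l => by unfold DC; ring)

theorem CC_ge (P : Prof) (k i j : Fin (m + 3)) (x : Fin (m + 3) → ℝ) (hk : 3 ≤ k.val) :
    CC P k i j x = 0 := by
  unfold CC
  rw [XX_ge x k (by omega), EE_ge k hk]
  ring

theorem PP_ge (k l : Fin (m + 3)) (hk : 3 ≤ k.val) : PP k l = 0 := by
  unfold PP
  rw [ea_ge k hk, eb_ge k hk]
  ring

theorem DC_ge (P : Prof) (l k i j : Fin (m + 3)) (x : Fin (m + 3) → ℝ) (hk : 3 ≤ k.val) :
    DC P l k i j x = 0 := by
  unfold DC
  rw [XX_ge x k (by omega), EE_ge k hk, PP_symm l k, PP_ge k l hk]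
  ring

theorem T1 (P : Prof) (x : Fin (m + 3) → ℝ) (i j : Fin (m + 3)) :
    ∑ k, DC P k k i j x =
      2 * (al P (tt x) * (XX x i * XX x j) + P.mu (tt x) * PP i j -
        ga P (tt x) * (EE i * EE j)) +
      (2 * tt x * al' P (tt x) + 2 * al P (tt x)) * (XX x i * XX x j) +
      2 * tt x * deriv P.mu (tt x) * PP i j - 2 * tt x * ga' P (tt x) * (EE i * EE j) := by
  rw [sum_three _ (fun k hk => DC_ge P k k i j x hk)]
  unfold DC
  simp only [XX_zero, XX_one, XX_two, EE_zero, EE_one, EE_two, PP_zero, PP_one, PP_two,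
    ea_zero, ea_one, ea_two, eb_zero, eb_one, eb_two]
  have htx : tt x = x 0 ^ 2 + x 1 ^ 2 := rfl
  unfold PP
  rw [XX_eq x i, XX_eq x j]
  generalize al' P (tt x) = al' at *
  generalize al P (tt x) = al at *
  generalize be' P (tt x) = be' at *
  generalize be P (tt x) = be at *
  generalize ga' P (tt x) = ga' at *
  generalize ga P (tt x) = ga at *
  generalize deriv P.mu (tt x) = D at *
  generalize P.mu (tt x) = mu at *
  rw [htx]
  ring

theorem T2 (P : Prof) (x : Fin (m + 3) → ℝ) (i j : Fin (m + 3)) :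
    ∑ k, DC P j k i k x =
      (al P (tt x) * tt x + P.mu (tt x) + be P (tt x)) * PP i j +
      (2 * al P (tt x) + 2 * tt x * al' P (tt x) + 2 * deriv P.mu (tt x) +
        2 * be' P (tt x)) * (XX x i * XX x j) := by
  rw [sum_three _ (fun k hk => DC_ge P j k i k x hk)]
  unfold DC
  simp only [XX_zero, XX_one, XX_two, EE_zero, EE_one, EE_two, PP_zero, PP_one, PP_two,
    ea_zero, ea_one, ea_two, eb_zero, eb_one, eb_two]
  have htx : tt x = x 0 ^ 2 + x 1 ^ 2 := rfl
  unfold PP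
  rw [XX_eq x i, XX_eq x j]
  simp only [ea_zero, ea_one, ea_two, eb_zero, eb_one, eb_two]
  generalize al' P (tt x) = al' at *
  generalize al P (tt x) = al at *
  generalize be' P (tt x) = be' at *
  generalize be P (tt x) = be at *
  generalize ga' P (tt x) = ga' at *
  generalize ga P (tt x) = ga at *
  generalize deriv P.mu (tt x) = D at *
  generalize P.mu (tt x) = mu at *
  rw [htx]
  ring

theorem T3a (P : Prof) (x : Fin (m + 3) → ℝ) (l : Fin (m + 3)) :
    ∑ k, CC P k k l x = (al P (tt x) * tt x + P.mu (tt x) + be P (tt x)) * XX x l := by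
  rw [sum_three _ (fun k hk => CC_ge P k k l x hk)]
  unfold CC
  simp only [XX_zero, XX_one, XX_two, EE_zero, EE_one, EE_two, PP_zero, PP_one, PP_two,
    ea_zero, ea_one, ea_two, eb_zero, eb_one, eb_two]
  have htx : tt x = x 0 ^ 2 + x 1 ^ 2 := rfl
  rw [XX_eq x l]
  generalize al P (tt x) = al at *
  generalize be P (tt x) = be at *
  generalize ga P (tt x) = ga at *
  generalize P.mu (tt x) = mu at *
  rw [htx]
  ring

theorem T4 (P : Prof) (x : Fin (m + 3) → ℝ) (i j : Fin (m + 3)) :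
    ∑ k, ∑ l, CC P k j l x * CC P l i k x =
      ((al P (tt x) * tt x + P.mu (tt x)) ^ 2 + be P (tt x) ^ 2) * (XX x i * XX x j) -
      2 * be P (tt x) * ga P (tt x) * tt x * (EE i * EE j) := by
  rw [sum_three]
  · rw [sum_three, sum_three, sum_three]
    · unfold CC
      simp only [XX_zero, XX_one, XX_two, EE_zero, EE_one, EE_two, PP_zero, PP_one, PP_two,
        ea_zero, ea_one, ea_two, eb_zero, eb_one, eb_two]
      have htx : tt x = x 0 ^ 2 + x 1 ^ 2 := rfl
      unfold PP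
      rw [XX_eq x i, XX_eq x j]
      simp only [ea_zero, ea_one, ea_two, eb_zero, eb_one, eb_two]
      generalize al P (tt x) = al at *
      generalize be P (tt x) = be at *
      generalize ga P (tt x) = ga at *
      generalize P.mu (tt x) = mu at *
      rw [htx]
      ring
    · intro l hl; rw [CC_ge P l _ _ x hl]; ring
    · intro l hl; rw [CC_ge P l _ _ x hl]; ring
    · intro l hl; rw [CC_ge P l _ _ x hl]; ring
  · intro k hk
    apply Finset.sum_eq_zero
    intro l _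
    rw [CC_ge P k _ _ x hk]; ring

end Pool.Agent.Lib.MP_e1fd79_gt.H59
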