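import Pool.Agent.Lib.MP_e1fd79_gt.H59.Ric3

set_option autoImplicit false

open scoped ContDiff Topology
open MeasureTheory Filter

namespace Pool.Agent.Lib.MP_e1fd79_gt.H59

variable {m : ℕ}

theorem rel1 (P : Prof) (t : ℝ) (ht : 0 ≤ t) : al P t * t + P.mu t + be P t = 0 := by
  have hN : P.N t ≠ 0 := (P.pos t ht).ne'
  have h1 := deriv_N P t ht
  have h0 : P.N t = 1 - t * P.mu t := rfl
  unfold al be
  field_simp
  linear_combination (1 - t * P.mu t) * h1 + (t * deriv P.mu t + P.mu t) * h0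

theorem rel2 (P : Prof) (t : ℝ) (ht : 0 ≤ t) :
    al P t + t * al' P t + deriv P.mu t + be' P t = 0 := by
  have hN : P.N t ≠ 0 := (P.pos t ht).ne'
  have h1 := deriv_N P t ht
  have h2 := deriv_N1 P t ht
  have h0 : P.N t = 1 - t * P.mu t := rfl
  unfold al al' be'
  rw [h2, h1]
  clear h1 h2
  generalize P.N t = N at *
  field_simp
  rw [h0]
  ring

theorem coef1 (P : Prof) (t : ℝ) (ht : 0 ≤ t) :
    2 * al P t + (2 * t * al' P t + 2 * al P t) -
      ((al P t * t + P.mu t) ^ 2 + be P t ^ 2) =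
    -2 * (t * deriv (deriv P.N) t + deriv P.N t) * (P.mu t / P.N t) -
      2 * deriv (deriv P.N) t := by
  have hN : P.N t ≠ 0 := (P.pos t ht).ne'
  have h1 := deriv_N P t ht
  have h2 := deriv_N1 P t ht
  have h0 : P.N t = 1 - t * P.mu t := rfl
  unfold al al' be
  rw [h2, h1]
  clear h1 h2
  generalize P.N t = N at *
  field_simp
  rw [h0]
  ring

theorem coef2 (P : Prof) (t : ℝ) (ht : 0 ≤ t) :
    2 * P.mu t + 2 * t * deriv P.mu t =
    -2 * (t * deriv (deriv P.N) t + deriv P.N t) + t * (2 * deriv (deriv P.N) t) := by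
  rw [deriv_N P t ht]
  ring

theorem coef3 (P : Prof) (t : ℝ) (ht : 0 ≤ t) :
    -2 * ga P t - 2 * t * ga' P t + 2 * be P t * ga P t * t =
    -2 * (t * deriv (deriv P.N) t + deriv P.N t) * P.N t := by
  have hN : P.N t ≠ 0 := (P.pos t ht).ne'
  unfold ga ga' be
  field_simp
  ring

theorem ricci_eq (P : Prof) (M : RMetric (m + 3)) (hM : M.g = P.gM) (x : Fin (m + 3) → ℝ)
    (i j : Fin (m + 3)) (a b : ℝ)
    (ha : a = -2 * (tt x * deriv (deriv P.N) (tt x) + deriv P.N (tt x)))
    (hb : b = 2 * deriv (deriv P.N) (tt x)) :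
    M.ricci i j x = (a * (P.mu (tt x) / P.N (tt x)) - b) * (XX x i * XX x j) +
      (a + tt x * b) * PP i j + a * P.N (tt x) * (EE i * EE j) := by
  have hC : ∀ k i j, M.christoffel k i j = CC P k i j := by
    intro k i j
    funext z
    exact christoffel_eq P M hM k i j z
  have ht := tt_nonneg x
  unfold RMetric.ricci
  simp only [hC, (hp_CC P x _ _ _).2]
  rw [Finset.sum_add_distrib, Finset.sum_sub_distrib, T1, T2]
  simp_rw [Finset.sum_sub_distrib]
  rw [T4]
  have h3 : ∑ k, ∑ l, CC P k k l x * CC P l i j x = 0 := by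
    rw [Finset.sum_comm]
    apply Finset.sum_eq_zero
    intro l _
    rw [← Finset.sum_mul, T3a, rel1 P (tt x) ht]
    ring
  rw [h3]
  have e1 := rel1 P (tt x) ht
  have e2 := rel2 P (tt x) ht
  have c1 := coef1 P (tt x) ht
  have c2 := coef2 P (tt x) ht
  have c3 := coef3 P (tt x) ht
  rw [ha, hb]
  linear_combination (XX x i * XX x j) * c1 + PP i j * c2 + (EE i * EE j) * c3 -
    PP i j * e1 - 2 * (XX x i * XX x j) * e2

/-- Double sums against a tensor of the special form. -/
theorem sum_form (x v : Fin (m + 3) → ℝ) (c1 c2 c3 : ℝ) :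
    ∑ i, ∑ j, (c1 * (XX x i * XX x j) + c2 * PP i j + c3 * (EE i * EE j)) * v i * v j =
      c1 * (x 0 * v 0 + x 1 * v 1) ^ 2 + c2 * (v 0 ^ 2 + v 1 ^ 2) + c3 * v 2 ^ 2 := by
  have h : ∀ i : Fin (m + 3), ∑ j, (c1 * (XX x i * XX x j) + c2 * PP i j + c3 * (EE i * EE j)) *
      v i * v j = c1 * XX x i * v i * (x 0 * v 0 + x 1 * v 1) +
        c2 * v i * (ea i * v 0 + eb i * v 1) + c3 * EE i * v i * v 2 := by
    intro i
    rw [sum_three]
    · simp only [XX_zero, XX_one, XX_two, EE_zero, EE_one, EE_two, PP_symm i, PP_zero, PP_one,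
        PP_two]
      ring
    · intro j hj
      rw [XX_ge x j (by omega), EE_ge j hj, PP_symm i j, PP_ge j i hj]
      ring
  simp_rw [h]
  rw [sum_three]
  · simp only [XX_zero, XX_one, XX_two, EE_zero, EE_one, EE_two, ea_zero, ea_one, ea_two,
      eb_zero, eb_one, eb_two]
    ring
  · intro i hi
    rw [XX_ge x i (by omega), EE_ge i hi, ea_ge i hi, eb_ge i hi]
    ring

theorem ric_holds : RicStatement := by
  intro P m M hM x a b ha hb
  have hN := (N_pos P x).ne'
  have ht := tt_nonneg x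
  refine ⟨fun v => ?_, ?_⟩
  · simp only [ricci_eq P M hM x _ _ a b ha hb]
    rw [sum_form]
    have hs := s_sq x v
    unfold Prof.qf
    linear_combination (-b) * hs
  · unfold RMetric.scal
    rw [hM, gM_inv]
    simp only [sum_gI]
    simp only [ricci_eq P M hM x _ _ a b ha hb]
    have hNt : P.N (tt x) = 1 - tt x * P.mu (tt x) := rfl
    rw [sum_three]
    · simp only [XX_zero, XX_one, XX_two, EE_zero, EE_one, EE_two, PP_zero, PP_one, PP_two,
        ea_zero, ea_one, ea_two, eb_zero, eb_one, eb_two]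
      have htx : tt x = x 0 ^ 2 + x 1 ^ 2 := rfl
      generalize P.mu (tt x) = mu at *
      generalize P.N (tt x) = N at *
      clear ha hb
      generalize tt x = t at *
      subst htx
      field_simp
      rw [hNt]
      ring
    · intro i hi
      rw [XX_ge x i (by omega), EE_ge i hi, PP_ge i i hi]
      ring

end Pool.Agent.Lib.MP_e1fd79_gt.H59
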